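import Pool.Agent.L0h85.DS.M2
import Pool.Agent.L0h85.DS.M4
import Pool.Agent.L0h85.DS.M5
import Pool.Agent.L0h85.DS.M6

/-!
# The diameter of `Diff_0(S^n)` is finite for all `s < 1 + n/p`

Proof. A vector field `ε w((y - q) / ε)` in a chart has a `W^{s,p}` norm at most `C ε ^ (1 + n/p - s)`, so that
(1) a ball can be squeezed to an arbitrarily small ball at a bounded cost (geometric series), (2) after conjugation by such a
squeeze an isotopy supported in a ball is arbitrarily short, hence diffeomorphisms isotopic to the identity in a ball have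
bounded distance to the identity, (3) the same holds for the diffeomorphisms isotopic to the identity relative to a
neighbourhood of a point, by squeezes centred at the point, and (4) every element of `Diff_0(S^n)` is a product of two of
these (fragmentation; the track of a point misses another point because `n ≥ 2`).
-/

set_option autoImplicit false

open scoped Manifold ContDiff ENNReal Topology
open MeasureTheory Metric Set

namespace Pool.Agent.Results.MP_395ed7_gt.FiniteDiameter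

/-- Euclidean space `ℝ^n` -/
abbrev V (n : ℕ) := EuclideanSpace ℝ (Fin n)

/-- the unit sphere `S^n` in `ℝ^(n+1)`, with Mathlib's structure of a smooth manifold -/
abbrev Sph (n : ℕ) := sphere (0 : V (n + 1)) 1

/-- `(t, x) ↦ f_t(x)` is a smooth map on `ℝ × M` -/
def SmoothFam (H : Type) {M : Type} [NormedAddCommGroup H] [NormedSpace ℝ H] [TopologicalSpace M] [ChartedSpace H M]
    (f : ℝ → M → M) : Prop :=
  ContMDiff (𝓘(ℝ, ℝ).prod 𝓘(ℝ, H)) 𝓘(ℝ, H) ∞ (fun q : ℝ × M => f q.1 q.2)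

/-- smooth paths of diffeomorphisms of `M`: bijections `φ_t`, such that `(t, x) ↦ φ_t(x)` and `(t, x) ↦ φ_t⁻¹(x)` are
smooth on `ℝ × M` -/
def SmoothPath (H : Type) {M : Type} [NormedAddCommGroup H] [NormedSpace ℝ H] [TopologicalSpace M] [ChartedSpace H M]
    (φ : ℝ → M ≃ M) : Prop :=
  SmoothFam H (fun t => φ t) ∧ SmoothFam H (fun t => (φ t).symm)

/-- the velocity `∂_t φ_t ∘ φ_t⁻¹`, for `M` embedded in `E` by `i` -/
noncomputable def vel {E M : Type} [NormedAddCommGroup E] [NormedSpace ℝ E] (i : M → E) (φ : ℝ → M ≃ M) (t : ℝ) (x : M) : E :=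
  deriv (fun s => i (φ s ((φ t).symm x))) t

/-- the sum of the integrals of `|D^j f|^p`, `j ≤ k` -/
noncomputable def sobInt {H F : Type} [NormedAddCommGroup H] [NormedSpace ℝ H] [MeasureSpace H] [NormedAddCommGroup F]
    [NormedSpace ℝ F] (k : ℕ) (p : ℝ) (f : H → F) : ℝ≥0∞ :=
  ∑ j ∈ Finset.range (k + 1), ∫⁻ x, ‖iteratedFDeriv ℝ j f x‖ₑ ^ p

/-- the double integral of `|D^k f(x) - D^k f(y)|^p / |x - y|^r` -/
noncomputable def gagliardo {H F : Type} [NormedAddCommGroup H] [NormedSpace ℝ H] [MeasureSpace H] [NormedAddCommGroup F]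
    [NormedSpace ℝ F] (k : ℕ) (p r : ℝ) (f : H → F) : ℝ≥0∞ :=
  ∫⁻ x, ∫⁻ y, ‖iteratedFDeriv ℝ k f x - iteratedFDeriv ℝ k f y‖ₑ ^ p / ‖x - y‖ₑ ^ r

/-- A smooth chart `e` of `M` (any chart of the maximal atlas, for instance the inverse of the exponential map on a small
geodesic ball) and a smooth function `W` on `M`, supported in the domain of the chart, with values linear maps `E → F`: for
instance `W = ρ • id` with a function `ρ` of a partition of unity, or `W = ρ D e` -/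
structure Chart (H M E F : Type) [NormedAddCommGroup H] [NormedSpace ℝ H] [TopologicalSpace M] [ChartedSpace H M]
    [NormedAddCommGroup E] [NormedSpace ℝ E] [NormedAddCommGroup F] [NormedSpace ℝ F] where
  e : OpenPartialHomeomorph M H
  he : e ∈ IsManifold.maximalAtlas 𝓘(ℝ, H) ∞ M
  W : M → (E →L[ℝ] F)
  hW : ContMDiff 𝓘(ℝ, H) 𝓘(ℝ, E →L[ℝ] F) ∞ W
  hsupp : tsupport W ⊆ e.source

open Classical in
/-- the local representative of the field `h` in the chart: `(W h) ∘ e⁻¹`, extended by zero -/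
noncomputable def Chart.rep {H M E F : Type} [NormedAddCommGroup H] [NormedSpace ℝ H] [TopologicalSpace M] [ChartedSpace H M]
    [NormedAddCommGroup E] [NormedSpace ℝ E] [NormedAddCommGroup F] [NormedSpace ℝ F] (A : Chart H M E F) (h : M → E)
    (z : H) : F :=
  if z ∈ A.e.target then A.W (A.e.symm z) (h (A.e.symm z)) else 0

/-- the norm of `W^{s,p}(ℝ^n; ℝ^d)`, `s ≥ 0` -/
noncomputable def sobolev {n d : ℕ} (s p : ℝ) (f : V n → V d) : ℝ≥0∞ :=
  sobInt ⌊s⌋₊ p f ^ (1 / p) + if s - ⌊s⌋₊ = 0 then 0 else gagliardo ⌊s⌋₊ p (n + (s - ⌊s⌋₊) * p) f ^ (1 / p)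

/-- charts of the sphere, with cut-offs `W` with values linear maps `ℝ^(n+1) → ℝ^d` -/
abbrev SphChart (n d : ℕ) := Chart (V n) (Sph n) (V (n + 1)) (V d)

/-- the `W^{s,p}` norm of vector fields on `S^n`, defined by the finite family of charts `A` -/
noncomputable def normS {n d : ℕ} {ι : Type} [Fintype ι] (A : ι → SphChart n d) (s p : ℝ) (h : Sph n → V (n + 1)) : ℝ≥0∞ :=
  (∑ α, sobolev s p ((A α).rep h) ^ 2) ^ (1 / 2 : ℝ)

/-- smooth paths of diffeomorphisms of `S^n` -/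
def PathS {n : ℕ} (φ : ℝ → Sph n ≃ Sph n) : Prop := SmoothPath (V n) φ

/-- the length of a path -/
noncomputable def lengthS {n d : ℕ} {ι : Type} [Fintype ι] (A : ι → SphChart n d) (s p : ℝ) (φ : ℝ → Sph n ≃ Sph n) : ℝ≥0∞ :=
  ∫⁻ t in Icc (0 : ℝ) 1, normS A s p (vel Subtype.val φ t)

/-- `Diff_0(S^n)`: the diffeomorphisms which are joined to the identity by a smooth path -/
def Diff0 (n : ℕ) : Set (Sph n ≃ Sph n) := {ψ | ∃ φ : ℝ → Sph n ≃ Sph n, PathS φ ∧ φ 0 = Equiv.refl _ ∧ φ 1 = ψ}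

/-- the geodesic distance of the right-invariant Finsler metric: the infimum of the lengths of the smooth paths -/
noncomputable def distS {n d : ℕ} {ι : Type} [Fintype ι] (A : ι → SphChart n d) (s p : ℝ) (ψ₀ ψ₁ : Sph n ≃ Sph n) : ℝ≥0∞ :=
  ⨅ (φ : ℝ → Sph n ≃ Sph n) (_ : PathS φ) (_ : φ 0 = ψ₀) (_ : φ 1 = ψ₁), lengthS A s p φ

/-- the diameter `sup dist(id, ψ)` over `ψ ∈ Diff_0(S^n)` -/
noncomputable def diam {n d : ℕ} {ι : Type} [Fintype ι] (A : ι → SphChart n d) (s p : ℝ) : ℝ≥0∞ :=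
  ⨆ ψ ∈ Diff0 n, distS A s p (Equiv.refl _) ψ

/-! ### Comparison with the definitions of the files used in the proof -/

/-- a chart, in the form used in the proof -/
def toOld {n d : ℕ} (A : SphChart n d) : Pool.Agent.L0h85.DS.Chart n where
  d := d
  e := A.e
  he := A.he
  W := A.W
  hW := A.hW
  hsupp := A.hsupp

theorem normS_eq {n d : ℕ} {ι : Type} [Fintype ι] (A : ι → SphChart n d) (s p : ℝ) (h : Sph n → V (n + 1)) :
    normS A s p h = Pool.Agent.L0h85.DS.sobS (fun α => toOld (A α)) ⌊s⌋₊ (s - ⌊s⌋₊) p h := rfl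

/-- For all `n ≥ 2`, `1 < p < ∞` and `0 ≤ s < 1 + n / p`, the diameter of `Diff_0(S^n)` with the right-invariant `W^{s,p}`
metric is finite, for every choice of the finite family of charts and cut-off functions in the definition of the norm. -/
theorem result (n : ℕ) (hn : 2 ≤ n) (p : ℝ) (hp : 1 < p) (s : ℝ) (hs0 : 0 ≤ s) (hs : s < 1 + n / p)
    {d : ℕ} {ι : Type} [Fintype ι] (A : ι → SphChart n d) : diam A s p < ⊤ := by
  have hM2 : Pool.Agent.L0h85.DS.M2 := Pool.Agent.L0h85.DS.m2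
  have hM3 := Pool.Agent.L0h85.DS.m3
  have hM4 := Pool.Agent.L0h85.DS.m4
  have hM7 : Pool.Agent.L0h85.DS.M7 := Pool.Agent.L0h85.DS.m7 hM2 hM3 hM4
  have hσ0 : 0 ≤ s - ⌊s⌋₊ := sub_nonneg.mpr (Nat.floor_le hs0)
  have hσ1 : s - ⌊s⌋₊ < 1 := by
    have := Nat.lt_floor_add_one s
    linarith
  obtain ⟨C, hC, hcost⟩ := hM7 n ι (fun α => toOld (A α)) ⌊s⌋₊ (s - ⌊s⌋₊) p (by omega) hσ0 hσ1 hp.le (by linarith)
  refine lt_of_le_of_lt (?_ : _ ≤ C + C) (by simpa [lt_top_iff_ne_top] using hC)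
  refine iSup₂_le fun ψ hψ => ?_
  obtain ⟨φ, hφ, h0, h1⟩ := hψ
  have hin : ∀ t : ℝ, ContMDiff (𝓡 n) (𝓘(ℝ, ℝ).prod (𝓡 n)) ∞ (fun x : Sph n => (t, x)) := fun t =>
    contMDiff_const.prodMk contMDiff_id
  let Φ : ℝ → Pool.Agent.L0h85.DS.Dif n := fun t =>
    { toEquiv := φ t
      contMDiff_toFun := hφ.1.comp (hin t)
      contMDiff_invFun := hφ.2.comp (hin t) }
  have hΦ : Pool.Agent.L0h85.DS.SmoothPath Φ := ⟨hφ.1, hφ.2⟩
  have hΦ0 : ∀ y, Φ 0 y = y := fun y => by
    show φ 0 y = y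
    rw [h0]; rfl
  obtain ⟨x⟩ : Nonempty (Sph n) := ⟨⟨EuclideanSpace.single 0 1, by simp⟩⟩
  obtain ⟨v, hv⟩ := Pool.Agent.L0h85.DS.m6 n Φ x hn hΦ
  obtain ⟨G, F, hG, hF, hGF⟩ := Pool.Agent.L0h85.DS.m5 hM3 hM4 n Φ x v (by omega) hΦ hΦ0 (fun t _ => hv t)
  have hN := Pool.Agent.L0h85.DS.homN (n := n) (fun α => toOld (A α)) ⌊s⌋₊ (s - ⌊s⌋₊) p hp.le
  obtain ⟨Ψ, g1, g2, g3, g4⟩ := (hcost x F hF).trans hN (hcost v G hG)
  refine iInf_le_of_le (fun t => (Ψ t).toEquiv) (iInf_le_of_le ⟨g1.1, g1.2⟩ (iInf_le_of_le (Equiv.ext fun y => g2 0 le_rfl y)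
    (iInf_le_of_le (Equiv.ext fun y => ?_) g4)))
  show Ψ 1 y = ψ y
  rw [g3 1 le_rfl, ← h1]
  exact (hGF y).symm

end Pool.Agent.Results.MP_395ed7_gt.FiniteDiameter
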